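import Mathlib

namespace Pool.Agent.Results.MP_2093e0_al.SWNCIff

/-- `a = e + b` with `e` idempotent, `b` nilpotent and `e b = b e`. -/
def StronglyNilCleanElt {R : Type} [Ring R] (a : R) : Prop :=
  ∃ e b : R, IsIdempotentElem e ∧ IsNilpotent b ∧ e * b = b * e ∧ a = e + b

/-- For every `a`, one of `a`, `-a` is strongly nil-clean. -/
def StronglyWeaklyNilClean (R : Type) [Ring R] : Prop :=
  ∀ a : R, StronglyNilCleanElt a ∨ StronglyNilCleanElt (-a)

/-- Every unit has the form `n + 1` or `n - 1` with `n` nilpotent. -/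
def WUU (R : Type) [Ring R] : Prop :=
  ∀ u : R, IsUnit u → ∃ n : R, IsNilpotent n ∧ (u = n + 1 ∨ u = n - 1)

/-- Every right ideal not contained in the Jacobson radical contains a nonzero idempotent. -/
def SemiPotent (R : Type) [Ring R] : Prop :=
  ∀ I : Submodule Rᵐᵒᵖ R, ¬ ((I : Set R) ⊆ (Ring.jacobson R : Set R)) →
    ∃ e ∈ I, IsIdempotentElem e ∧ e ≠ 0

lemma idem_nil {S : Type} [Ring S] {e : S} (he : IsIdempotentElem e) (hn : IsNilpotent e) :
    e = 0 := by
  obtain ⟨n, hn⟩ := hn
  rw [← he.pow_succ_eq n, pow_succ, hn, zero_mul]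

lemma reduced {S : Type} [Ring S]
    (hs : ∀ x : S, x ≠ 0 → ∃ b, IsIdempotentElem (x * b) ∧ x * b ≠ 0) (hu : WUU S) :
    ∀ x : S, x * x = 0 → x = 0 := by
  intro x hx
  by_contra h0
  obtain ⟨b, he, hne⟩ := hs x h0
  have hxe : x * (x * b) = 0 := by rw [← mul_assoc, hx, zero_mul]
  obtain ⟨e, hedef⟩ : ∃ e, e = x * b := ⟨_, rfl⟩
  rw [← hedef] at he hne hxe
  have ee : e * e = e := he
  obtain ⟨a, ha⟩ : ∃ a, a = e * x := ⟨_, rfl⟩
  obtain ⟨c, hc⟩ : ∃ c, c = (1 - e) * b * e := ⟨_, rfl⟩
  have ea : e * a = a := by rw [ha, ← mul_assoc, ee]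
  have ae : a * e = 0 := by rw [ha, mul_assoc, hxe, mul_zero]
  have ec : e * c = 0 := by rw [hc, ← mul_assoc, ← mul_assoc, mul_sub, mul_one, ee]; simp
  have ce : c * e = c := by rw [hc, mul_assoc, ee]
  have ac : a * c = e := by
    rw [hc, ← mul_assoc, ← mul_assoc, mul_sub, mul_one, ae, sub_zero, ha, mul_assoc e x b, ← hedef,
      ee, ee]
  have aa : a * a = 0 := by rw [← ea, mul_assoc, ← mul_assoc a, ae]; simp
  have cc : c * c = 0 := by rw [← ce, mul_assoc, ← mul_assoc e, ec]; simp
  have ee' : ∀ y, e * (e * y) = e * y := fun y => by rw [← mul_assoc, ee]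
  have ea' : ∀ y, e * (a * y) = a * y := fun y => by rw [← mul_assoc, ea]
  have ae' : ∀ y, a * (e * y) = 0 := fun y => by rw [← mul_assoc, ae, zero_mul]
  have ec' : ∀ y, e * (c * y) = 0 := fun y => by rw [← mul_assoc, ec, zero_mul]
  have ce' : ∀ y, c * (e * y) = c * y := fun y => by rw [← mul_assoc, ce]
  have ac' : ∀ y, a * (c * y) = e * y := fun y => by rw [← mul_assoc, ac]
  have aa' : ∀ y, a * (a * y) = 0 := fun y => by rw [← mul_assoc, aa, zero_mul]
  have cc' : ∀ y, c * (c * y) = 0 := fun y => by rw [← mul_assoc, cc, zero_mul]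
  have hf : IsIdempotentElem (e + c * a) := by
    unfold IsIdempotentElem
    simp only [mul_add, add_mul, mul_assoc, ee, ae, ec', ac', ea, mul_zero, add_zero, zero_add]
  have hfin : ¬ IsNilpotent (e + c * a) := by
    intro hn
    have := idem_nil hf hn
    apply hne
    have h2 : e * (e + c * a) = e := by rw [mul_add, ee, ec', add_zero]
    rw [← h2, this, mul_zero]
  have hunit : IsUnit (1 + a + c - e) := by
    refine ⟨⟨1 + a + c - e, 1 + a + c - e - e - c * a, ?_, ?_⟩, rfl⟩ <;>
    · simp only [mul_add, add_mul, mul_sub, sub_mul, mul_assoc, ee, ae, ec, ce, ac, ea, aa, cc,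
        ee', ae', ec', ce', ac', ea', aa', cc', mul_zero, mul_one, one_mul]
      abel
  obtain ⟨n, hn, h | h⟩ := hu _ hunit
  · have hn' : n = a + c - e := by rw [← sub_eq_iff_eq_add] at h; rw [← h]; abel
    have h1 : n * (a + c + c * a) = e + c * a := by
      rw [hn']
      simp only [mul_add, add_mul, mul_sub, sub_mul, mul_assoc, ee, ae, ec, ce, ac, ea, aa, cc,
        ee', ae', ec', ce', ac', ea', aa', cc', mul_zero, mul_one, one_mul]
      abel
    have h2 : (a + c + c * a) * n = e + c * a := by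
      rw [hn']
      simp only [mul_add, add_mul, mul_sub, sub_mul, mul_assoc, ee, ae, ec, ce, ac, ea, aa, cc,
        ee', ae', ec', ce', ac', ea', aa', cc', mul_zero, mul_one, one_mul]
      abel
    exact hfin (h1 ▸ Commute.isNilpotent_mul_right (h1.trans h2.symm) hn)
  · have hn' : n = 1 + 1 + a + c - e := by rw [eq_sub_iff_add_eq] at h; rw [← h]; abel
    have h1 : n * (e + e - a - c + c * a) = e + c * a := by
      rw [hn']
      simp only [mul_add, add_mul, mul_sub, sub_mul, mul_assoc, ee, ae, ec, ce, ac, ea, aa, cc,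
        ee', ae', ec', ce', ac', ea', aa', cc', mul_zero, mul_one, one_mul]
      abel
    have h2 : (e + e - a - c + c * a) * n = e + c * a := by
      rw [hn']
      simp only [mul_add, add_mul, mul_sub, sub_mul, mul_assoc, ee, ae, ec, ce, ac, ea, aa, cc,
        ee', ae', ec', ce', ac', ea', aa', cc', mul_zero, mul_one, one_mul]
      abel
    exact hfin (h1 ▸ Commute.isNilpotent_mul_right (h1.trans h2.symm) hn)

lemma core {S : Type} [Ring S]
    (hs : ∀ x : S, x ≠ 0 → ∃ b, IsIdempotentElem (x * b) ∧ x * b ≠ 0) (hu : WUU S) (a : S) :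
    a - a * a = 0 ∨ -a - -a * -a = 0 := by
  have hr := reduced hs hu
  haveI : IsReduced S := (isReduced_iff_pow_one_lt 2 (by norm_num)).2 (fun x hx => hr x (by
    rw [← pow_two]; exact hx))
  have hcen : ∀ e : S, IsIdempotentElem e → ∀ y, e * y = y * e := by
    intro e he y
    have ee : e * e = e := he
    have ee' : ∀ y, e * (e * y) = e * y := fun y => by rw [← mul_assoc, ee]
    have h1 := hr (e * y - e * y * e) (by
      simp only [mul_sub, sub_mul, mul_assoc, ee']; abel)
    have h2 := hr (y * e - e * y * e) (by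
      simp only [mul_sub, sub_mul, mul_assoc, ee']; abel)
    rw [sub_eq_zero] at h1 h2
    rw [h1, h2]
  have hunit : ∀ x y : S, x * y = 1 → x = 1 ∨ x = -1 := by
    intro x y hxy
    have hid : IsIdempotentElem (y * x) := by
      unfold IsIdempotentElem
      rw [mul_assoc, ← mul_assoc x, hxy, one_mul]
    have hyx : y * x = 1 := by
      calc y * x = y * x * (x * y) := by rw [hxy, mul_one]
        _ = x * (y * x) * y := by rw [← mul_assoc, hcen _ hid x]
        _ = 1 := by rw [← mul_assoc, hxy, one_mul, hxy]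
    obtain ⟨n, hn, h⟩ := hu x ⟨⟨x, y, hxy, hyx⟩, rfl⟩
    rw [hn.eq_zero] at h
    simpa using h
  have key : ∀ a : S, a - a * a ≠ 0 → ∃ e : S, e ≠ 0 ∧ e * e = e ∧ e = -(1 + 1) ∧ a * e = -e := by
    intro a ha
    obtain ⟨b, he, hne⟩ := hs _ ha
    obtain ⟨e, hedef⟩ : ∃ e, e = (a - a * a) * b := ⟨_, rfl⟩
    rw [← hedef] at he hne
    have ee : e * e = e := he
    have hc := hcen e he
    have gen : ∀ p q : S, p * q * b = e → p * e = e ∨ p * e + (1 - e) = -1 := by
      intro p q hpq
      have : (p * e + (1 - e)) * (q * b * e + (1 - e)) = 1 := by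
        have h1 : e * (q * b * e) = q * b * e := by rw [hc, mul_assoc, ee]
        have h2 : e * (1 - e) = 0 := by rw [mul_sub, mul_one, ee, sub_self]
        have h3 : (1 - e) * (1 - e) = 1 - e := he.one_sub
        have h4 : p * (q * b * e) = e := by rw [← mul_assoc, ← mul_assoc, hpq, ee]
        rw [add_mul, mul_add, mul_add, mul_assoc p, mul_assoc p, h1, h2, h3, h4, sub_mul, h1]
        simp
      rcases hunit _ _ this with h | h
      · left; rw [← sub_eq_zero, ← sub_eq_zero.2 h]; abel
      · right; exact h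
    have g1 := gen a (1 - a) (by rw [hedef, mul_sub, mul_one])
    have g2 := gen (1 - a) a (by rw [hedef, sub_mul, one_mul])
    have mulE : ∀ p : S, p * e + (1 - e) = -1 → p * e = -e := by
      intro p hp
      have := congrArg (· * e) hp
      simpa [add_mul, sub_mul, mul_assoc, ee] using this
    have hae : a * e = -e := by
      rcases g1 with h | h
      · exfalso
        apply hne
        have h5 : (1 - a) * a * b = e := by rw [hedef, sub_mul, one_mul]
        have h6 : (1 - a) * a = a * (1 - a) := by noncomm_ring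
        calc e = e * e := ee.symm
          _ = e * (a * (1 - a) * b) := by rw [← h6, h5]
          _ = a * ((1 - a) * e) * b := by
            rw [← mul_assoc, hc, mul_assoc a]
          _ = 0 := by rw [sub_mul, h, one_mul, sub_self]; simp
      · exact mulE _ h
    refine ⟨e, hne, ee, ?_, hae⟩
    rw [sub_mul, one_mul, hae] at g2
    rcases g2 with h | h
    · exfalso; apply hne
      rw [← sub_eq_zero] at h; rw [← h]; abel
    · rw [← sub_eq_zero] at h ⊢; rw [← h]; abel
  by_contra hcon
  push Not at hcon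
  obtain ⟨e, he0, he1, he2, he3⟩ := key a hcon.1
  obtain ⟨e', -, -, he2', he3'⟩ := key (-a) hcon.2
  rw [← he2] at he2'
  rw [he2', neg_mul, he3, neg_neg] at he3'
  apply he0
  have : e * e = -(e + e) := by
    conv_lhs => rw [he2]
    rw [← he2]; nth_rewrite 1 [he2]; noncomm_ring
  rw [← he1, this]
  nth_rewrite 1 [he3']
  simp

lemma unit_of_jac {R : Type} [Ring R] {j : R} (hj : j ∈ Ring.jacobson R) : IsUnit (1 + j) := by
  have hl : ∀ j ∈ Ring.jacobson R, ∃ z : R, z * (1 + j) = 1 := by
    intro j hj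
    rw [← Ideal.jacobson_bot, Ideal.mem_jacobson_iff] at hj
    obtain ⟨z, hz⟩ := hj 1
    rw [Ideal.mem_bot] at hz
    exact ⟨z, by rw [← sub_eq_zero, ← hz]; noncomm_ring⟩
  obtain ⟨z, hz⟩ := hl j hj
  obtain ⟨w, hw⟩ := hl (-(z * j)) (neg_mem (Ideal.mul_mem_left _ z hj))
  have hz' : 1 + -(z * j) = z := by rw [← hz]; noncomm_ring
  rw [hz'] at hw
  have : w = 1 + j := by
    calc w = w * (z * (1 + j)) := by rw [hz, mul_one]
      _ = 1 + j := by rw [← mul_assoc, hw, one_mul]
  exact ⟨⟨1 + j, z, by rw [← this, hw], hz⟩, rfl⟩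

lemma lift_nil {R : Type} [Ring R] {a : R} (h : IsNilpotent (a - a * a)) :
    StronglyNilCleanElt a := by
  obtain ⟨n, hn⟩ := h
  have hn' : (a - a ^ 2) ^ (n + 1) = 0 := by rw [pow_two, pow_succ, hn, zero_mul]
  have he := isIdempotentElem_one_sub_one_sub_pow_pow a (n + 1) hn'
  open Polynomial in
  have hdvd : (X - X * X : ℤ[X]) ∣ X - (1 - (1 - X ^ (n + 1)) ^ (n + 1)) := by
    have h1 : (X - X * X : ℤ[X]) = -((X - C 0) * (X - C 1)) := by simp; ring
    rw [h1, neg_dvd]
    refine IsCoprime.mul_dvd ⟨1, -1, by simp⟩ ?_ ?_ <;> rw [dvd_iff_isRoot] <;> simp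
  obtain ⟨g, hg⟩ := hdvd
  have hg' := congrArg (Polynomial.aeval a) hg
  have hcomm : Commute (Polynomial.aeval a (Polynomial.X - Polynomial.X * Polynomial.X : Polynomial ℤ))
      (Polynomial.aeval a g) := by
    unfold Commute SemiconjBy
    rw [← map_mul, ← map_mul, mul_comm]
  simp only [map_sub, map_mul, map_one, map_pow, Polynomial.aeval_X] at hg' hcomm
  refine ⟨1 - (1 - a ^ (n + 1)) ^ (n + 1), a - (1 - (1 - a ^ (n + 1)) ^ (n + 1)), he, ?_, ?_, by abel⟩
  · rw [hg']; exact hcomm.isNilpotent_mul_right ⟨n, hn⟩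
  · have : Commute (1 - (1 - a ^ (n + 1)) ^ (n + 1)) a :=
      (Commute.one_left a).sub_left (((Commute.one_left a).sub_left
        ((Commute.refl a).pow_left _)).pow_left _)
    exact this.sub_right (Commute.refl _)

theorem result (R : Type) [Ring R] : StronglyWeaklyNilClean R ↔ SemiPotent R ∧ WUU R := by
  constructor
  · intro h
    constructor
    · intro I hI
      have : ∃ a ∈ I, ¬ IsNilpotent a := by
        by_contra hcon
        push Not at hcon
        apply hI
        intro x hx
        rw [SetLike.mem_coe, ← Ideal.jacobson_bot, Ideal.mem_jacobson_iff]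
        intro y
        obtain ⟨n, hn⟩ := hcon (x * y) (I.smul_mem (MulOpposite.op y) hx)
        have hyx : IsNilpotent (y * x) := ⟨n + 1, by
          rw [pow_succ, ← mul_assoc, mul_pow_mul, hn]; simp⟩
        obtain ⟨u, hu⟩ := hyx.isUnit_add_one
        refine ⟨↑u⁻¹, ?_⟩
        rw [Ideal.mem_bot, ← u.inv_mul, hu]; noncomm_ring
      obtain ⟨a, haI, han⟩ := this
      have key : ∀ a ∈ I, ¬ IsNilpotent a → StronglyNilCleanElt a →
          ∃ e ∈ I, IsIdempotentElem e ∧ e ≠ 0 := by
        rintro a haI han ⟨e, b, he, hb, hc, rfl⟩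
        refine ⟨e, ?_, he, fun h0 => han (by simpa [h0] using hb)⟩
        obtain ⟨u, hu⟩ := hb.isUnit_one_add
        have : e = (e + b) * (e * ↑u⁻¹) := by
          rw [← mul_assoc, add_mul, he, ← hc, ← mul_one_add, ← hu, mul_assoc, u.mul_inv, mul_one]
        rw [this]
        exact I.smul_mem (MulOpposite.op _) haI
      rcases h a with h | h
      · exact key a haI han h
      · exact key (-a) (neg_mem haI) (by simpa using han) h
    · have key : ∀ u : R, IsUnit u → StronglyNilCleanElt u → ∃ n, IsNilpotent n ∧ u = n + 1 := by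
        rintro u hu ⟨e, b, he, hb, hc, rfl⟩
        have h1 : IsUnit (e + b + -b) :=
          hb.neg.isUnit_add_left_of_commute hu
            (Commute.add_left (show Commute e b from hc) (Commute.refl b)).neg_right.symm
        rw [add_neg_cancel_right] at h1
        have : e = 1 := h1.mul_left_cancel (by rw [he, mul_one])
        exact ⟨b, hb, by rw [this, add_comm]⟩
      intro u hu
      rcases h u with h | h
      · obtain ⟨n, hn, h1⟩ := key u hu h
        exact ⟨n, hn, Or.inl h1⟩
      · obtain ⟨n, hn, h1⟩ := key (-u) hu.neg h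
        exact ⟨-n, hn.neg, Or.inr (by rw [← neg_neg u, h1]; abel)⟩
  · rintro ⟨hsp, hw⟩
    have hnil : ∀ j ∈ Ring.jacobson R, IsNilpotent j := by
      intro j hj
      obtain ⟨n, hn, h | h⟩ := hw _ (unit_of_jac hj)
      · rw [add_comm, add_left_inj] at h
        rwa [h]
      obtain ⟨m, hm, hh | hh⟩ := hw _ (unit_of_jac (neg_mem hj))
      · rw [add_comm, add_left_inj] at hh
        rw [← hh] at hm; simpa using hm
      have e1 : n = (1 + 1) + j := by rw [eq_sub_iff_add_eq] at h; rw [← h]; abel
      have e2 : m = (1 + 1) - j := by rw [eq_sub_iff_add_eq] at hh; rw [← hh]; abel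
      have c1 : Commute n m := by rw [e1, e2]; unfold Commute SemiconjBy; noncomm_ring
      have h4 : IsNilpotent (((1 : R) + 1) ^ 2) := by
        have := c1.isNilpotent_add hn hm
        rw [e1, e2] at this
        convert this using 1; noncomm_ring
      have h2 : IsNilpotent ((1 : R) + 1) := h4.of_pow
      have c2 : Commute n (1 + 1) := (Commute.one_right n).add_right (Commute.one_right n)
      have := c2.isNilpotent_sub hn h2
      rwa [e1, add_sub_cancel_left] at this
    let π := Ideal.Quotient.mk (Ring.jacobson R)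
    have hs : ∀ x : R ⧸ Ring.jacobson R, x ≠ 0 → ∃ b, IsIdempotentElem (x * b) ∧ x * b ≠ 0 := by
      intro x hx
      obtain ⟨x, rfl⟩ := Ideal.Quotient.mk_surjective x
      obtain ⟨e, he, hid, hne⟩ := hsp (Submodule.span Rᵐᵒᵖ {x}) (fun hsub =>
        hx (Ideal.Quotient.eq_zero_iff_mem.2 (hsub (Submodule.mem_span_singleton_self x))))
      obtain ⟨b, rfl⟩ := Submodule.mem_span_singleton.1 he
      refine ⟨π b.unop, ?_, ?_⟩
      · exact hid.map π
      · intro h0
        exact hne (idem_nil hid (hnil _ (Ideal.Quotient.eq_zero_iff_mem.1 h0)))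
    have hu : WUU (R ⧸ Ring.jacobson R) := by
      intro u hu
      obtain ⟨x, rfl⟩ := Ideal.Quotient.mk_surjective u
      obtain ⟨v, hv⟩ := hu
      obtain ⟨y, hy⟩ := Ideal.Quotient.mk_surjective (↑v⁻¹ : R ⧸ Ring.jacobson R)
      have h1 : IsUnit (x * y) := by
        have := unit_of_jac (Ideal.Quotient.eq.1 (show π (x * y) = π 1 by
          rw [map_mul, map_one, ← hv, hy, v.mul_inv]))
        simpa using this
      have h2 : IsUnit (y * x) := by
        have := unit_of_jac (Ideal.Quotient.eq.1 (show π (y * x) = π 1 by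
          rw [map_mul, map_one, ← hv, hy, v.inv_mul]))
        simpa using this
      have hx : IsUnit x := by
        obtain ⟨p, hp⟩ := h1.exists_right_inv
        obtain ⟨q, hq⟩ := h2.exists_left_inv
        rw [mul_assoc] at hp
        rw [← mul_assoc] at hq
        exact ⟨⟨x, y * p, hp, by rw [← left_inv_eq_right_inv hq hp, hq]⟩, rfl⟩
      obtain ⟨n, hn, h⟩ := hw x hx
      refine ⟨π n, hn.map π, ?_⟩
      rcases h with h | h
      · left; rw [h, map_add, map_one]
      · right; rw [h, map_sub, map_one]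
    intro a
    rcases core hs hu (π a) with h | h
    · left
      exact lift_nil (hnil _ (Ideal.Quotient.eq_zero_iff_mem.1 (by simpa using h)))
    · right
      exact lift_nil (hnil _ (Ideal.Quotient.eq_zero_iff_mem.1 (by simpa using h)))

end Pool.Agent.Results.MP_2093e0_al.SWNCIff
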